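import Pool.Agent.Helper12.MA.StC
import Pool.Agent.Helper12.MA.Lib

/-! # Project MA (MP_d63854_co), module MCE: the case `x ∉ f3` is impossible -/

set_option autoImplicit false

namespace Pool.Agent.Helper62.MA

open Pool.Agent.Helper12.MA
open Pool.Agent.Helper51.AJ (IsMinor Planar Apex ExMinor Con Tch)
open Pool.Agent.Helper12.NK (rst Kc add cnt Pcy IsFace Cof plus)

/-- an edge which leaves `A` inside a connected set `D` -/
private theorem edge_out {V : Type} {M : SimpleGraph V} {D A : Set V} (hD : Con M D) {c y : V} (hc : c ∈ D) (hcA : c ∈ A)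
    (hy : y ∈ D) (hyA : y ∉ A) : ∃ a ∈ D, ∃ b ∈ D, a ∈ A ∧ b ∉ A ∧ M.Adj a b := by
  obtain ⟨w⟩ := hD.preconnected ⟨c, hc⟩ ⟨y, hy⟩
  obtain ⟨d, -, h1, h2⟩ := w.exists_boundary_dart {t : D | t.1 ∈ A} hcA hyA
  exact ⟨d.fst.1, d.fst.2, d.snd.1, d.snd.2, h1, h2, d.adj⟩

/-- the component of `a` in `W` -/
private theorem exists_cmp {V : Type} (M : SimpleGraph V) (W : Set V) (a : V) (ha : a ∈ W) :
    ∃ C ⊆ W, Con M C ∧ a ∈ C ∧ ∀ c ∈ C, ∀ n ∈ W, M.Adj c n → n ∈ C := by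
  have hs : {a} ∈ {D : Set V | D ⊆ W ∧ Con M D ∧ a ∈ D} :=
    ⟨Set.singleton_subset_iff.2 ha, Pool.Agent.Helper51.AJ.con_singleton M a, rfl⟩
  refine ⟨⋃₀ {D | D ⊆ W ∧ Con M D ∧ a ∈ D}, ?_, ?_, ?_, ?_⟩
  · exact Set.sUnion_subset fun D hD => hD.1
  · exact M.induce_sUnion_connected_of_pairwise_not_disjoint ⟨_, hs⟩ (fun h1 h2 => ⟨a, h1.2.2, h2.2.2⟩)
      (fun h1 => h1.2.1)
  · exact Set.mem_sUnion.2 ⟨_, hs, rfl⟩
  · rintro c hc n hn hcn
    obtain ⟨D, ⟨hD1, hD2, hD3⟩, hcD⟩ := Set.mem_sUnion.1 hc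
    refine Set.mem_sUnion.2 ⟨D ∪ {n}, ⟨?_, ?_, Or.inl hD3⟩, Or.inr rfl⟩
    · exact Set.union_subset hD1 (Set.singleton_subset_iff.2 hn)
    · exact Pool.Agent.Helper51.AJ.con_union hD2 (Pool.Agent.Helper51.AJ.con_singleton M n) ⟨c, hcD, n, rfl, hcn⟩

/-- the part of a cut which is needed here -/
private structure CF {V : Type} (z v p q r r' σ b : V) (X Y : Set V) : Prop where
  cov : ∀ a, a = v ∨ a = z ∨ a = σ ∨ a = b ∨ a ∈ X ∨ a ∈ Y
  nX : v ∉ X ∧ z ∉ X ∧ σ ∉ X ∧ b ∉ X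
  nY : v ∉ Y ∧ z ∉ Y ∧ σ ∉ Y ∧ b ∉ Y
  XY : ∀ a ∈ X, a ∉ Y
  zs : σ ≠ z
  zb : b ≠ z
  pX : p ∈ X
  sX : r' ∈ X
  qY : q ∈ Y
  rY : r ∈ Y

private theorem cf_of {V : Type} [Finite V] {G : SimpleGraph V} {z v p q r r' : V} {f1 f3 : Set V} {σ b : V} {X Y : Set V}
    (h : Cut G z v p q r r' f1 f3 σ b X Y) : CF z v p q r r' σ b X Y := by
  have hcov : ∀ a, (a ∈ X ∨ a ∈ Y) ↔ a ∉ ({v, z, σ, b} : Set V) := by
    intro a
    have : (a ∈ X ∪ Y) ↔ a ∈ ({v, z, σ, b} : Set V)ᶜ := by rw [h.sep.cov]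
    exact this
  have hX : ∀ a ∈ X, a ≠ v ∧ a ≠ z ∧ a ≠ σ ∧ a ≠ b := by
    intro a ha
    have := (hcov a).1 (Or.inl ha)
    simpa [not_or] using this
  have hY : ∀ a ∈ Y, a ≠ v ∧ a ≠ z ∧ a ≠ σ ∧ a ≠ b := by
    intro a ha
    have := (hcov a).1 (Or.inr ha)
    simpa [not_or] using this
  have h3 : ∀ a b c : V, ({a, b, c} : Set V).ncard ≤ 3 := by
    intro a b c
    have h1 := Set.ncard_insert_le a ({b, c} : Set V)
    have h2 := Set.ncard_insert_le b ({c} : Set V)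
    rw [Set.ncard_singleton] at h2
    omega
  refine ⟨?_, ⟨fun k => (hX v k).1 rfl, fun k => (hX z k).2.1 rfl, fun k => (hX σ k).2.2.1 rfl,
    fun k => (hX b k).2.2.2 rfl⟩, ⟨fun k => (hY v k).1 rfl, fun k => (hY z k).2.1 rfl, fun k => (hY σ k).2.2.1 rfl,
    fun k => (hY b k).2.2.2 rfl⟩, fun a ha hb => Set.disjoint_left.1 h.sep.dis ha hb, ?_, ?_, h.sep.xL, h.sX,
    h.sep.yR, h.rY⟩
  · intro a
    by_cases k : a ∈ ({v, z, σ, b} : Set V)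
    · simp only [Set.mem_insert_iff, Set.mem_singleton_iff] at k
      tauto
    · have := (hcov a).2 k
      tauto
  · rintro rfl
    have h4 := h.sep.card
    have h5 : ({v, σ, σ, b} : Set V) = {v, σ, b} := by ext t; simp
    rw [h5] at h4
    have := h3 v σ b
    omega
  · rintro rfl
    have h4 := h.sep.card
    have h5 : ({v, b, σ, b} : Set V) = {v, b, σ} := by ext t; simp; tauto
    rw [h5] at h4
    have := h3 v b σ
    omega

/-- a connected set of `dl G p q` which avoids the cut lies on one side -/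
private theorem side {V : Type} [Finite V] {G : SimpleGraph V} {z v p q r r' : V} {f1 f3 : Set V} {σ b : V} {X Y : Set V}
    (h : Cut G z v p q r r' f1 f3 σ b X Y) {D : Set V} (hD : Con (dl G p q) D) (hv : v ∉ D) (hz : z ∉ D) (hs : σ ∉ D)
    (hb : b ∉ D) {t : V} (ht : t ∈ D) (htY : t ∈ Y) : D ⊆ Y := by
  intro y hy
  by_contra hyY
  obtain ⟨a, ha, c, hc, haY, hcY, hac⟩ := edge_out hD ht htY hy hyY
  have hcX : c ∈ X := by
    rcases (cf_of h).cov c with k | k | k | k | k | k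
    · exact absurd (k ▸ hc) hv
    · exact absurd (k ▸ hc) hz
    · exact absurd (k ▸ hc) hs
    · exact absurd (k ▸ hc) hb
    · exact k
    · exact absurd k hcY
  obtain ⟨h1, h2⟩ := h.sep.only c hcX a haY hac.1.symm
  exact hac.2.2 ⟨h2, h1⟩

theorem hMCE : StFAY → StFNB → StSYM → StBAS → StRIM → StPCL → StCRN → StHFA → StCLS → StPVB → StCUA → StCUM → StUNX →
    StORD → StGAA → StGAB → StENS → StMCC → StMCD → StMCE := by
  intro hFAY hFNB hSYM hBAS hRIM hPCL hCRN hHFA hCLS hPVB hCUA hCUM hUNX hORD hGAA hGAB hENS hMCC hMCD V _ G z v p q r r'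
    f1 f2 f3 f4 X₀ Y₀ x y hE
  by_contra hx3
  have hcf := hE.cf
  obtain ⟨hy1, hx1, hx2, hx4, ⟨Φ, hΦ1, hΦ2, hΦ3, hΦ4⟩, hW⟩ := hMCC V G z v p q r r' f1 f2 f3 f4 X₀ Y₀ x y hE hx3
  obtain ⟨hCL1, hCL2, hCL3, hCL4⟩ := hCLS V G z v p q r r' f1 f2 f3 f4 hcf
  obtain ⟨hvp, hvq⟩ := hPVB V G z v p q r r' f1 f2 f3 f4 hcf
  obtain ⟨hC1, hC2, hC3, hC4, hC5, hC6⟩ := hCRN V G z v p q r r' f1 f2 f3 f4 hcf
  obtain ⟨hcfr, -, hNgr, hCutr⟩ := hSYM V G z v p q r r' f1 f2 f3 f4 hcf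
  obtain ⟨hB1, hB2, hB3, hB4, hB5, hB6, hB7⟩ := hBAS V G hcf.bh
  obtain ⟨hL1, hL2, hL3, hL4, hL5, hL6⟩ := hPCL V (dl G p q) {v}ᶜ
  obtain ⟨nvp, nvq, nvr, nvs, npq, npr, nps, nqr, nqs, nrs⟩ := hcf.ds.ne
  have nzv : z ≠ v := G.ne_of_adj ((hcf.ds.nb v).2 (Or.inl rfl))
  have nzp : z ≠ p := G.ne_of_adj ((hcf.ds.nb p).2 (Or.inr (Or.inl rfl)))
  have nzq : z ≠ q := G.ne_of_adj ((hcf.ds.nb q).2 (Or.inr (Or.inr (Or.inl rfl))))
  have nzr : z ≠ r := G.ne_of_adj ((hcf.ds.nb r).2 (Or.inr (Or.inr (Or.inr (Or.inl rfl)))))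
  have nzs : z ≠ r' := G.ne_of_adj ((hcf.ds.nb r').2 (Or.inr (Or.inr (Or.inr (Or.inr rfl)))))
  have m12 : ∀ t, t ∈ f1 → t ∈ f2 → t = z ∨ t = r := fun t h1 h2 => by
    have : t ∈ f1 ∩ f2 := ⟨h1, h2⟩
    rw [hcf.x12] at this
    exact this
  have m23 : ∀ t, t ∈ f2 → t ∈ f3 → t = z ∨ t = q := fun t h1 h2 => by
    have : t ∈ f2 ∩ f3 := ⟨h1, h2⟩
    rw [hcf.x23] at this
    exact this
  have m34 : ∀ t, t ∈ f3 → t ∈ f4 → t = z ∨ t = r' := fun t h1 h2 => by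
    have : t ∈ f3 ∩ f4 := ⟨h1, h2⟩
    rw [hcf.x34] at this
    exact this
  have m41 : ∀ t, t ∈ f4 → t ∈ f1 → t = z ∨ t = p := fun t h1 h2 => by
    have : t ∈ f4 ∩ f1 := ⟨h1, h2⟩
    rw [hcf.x41] at this
    exact this
  have m13 : ∀ t, t ∈ f1 → t ∈ f3 → t = z := fun t h1 h2 => by
    have : t ∈ f1 ∩ f3 := ⟨h1, h2⟩
    rw [hcf.x13] at this
    exact this
  have fv : ∀ F, IsFace (dl G p q) {v}ᶜ F → v ∉ F := by
    rintro F ⟨m, c, hc, rfl⟩ hv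
    exact hc.2.2.1 hv rfl
  -- basic facts on `x` and `y`
  have hxz : x ≠ z := by
    rintro rfl
    exact hx1 hcf.z1
  have hyz : y ≠ z := by
    obtain ⟨σ, b, X, hc⟩ := hE.cY
    rintro rfl
    exact (cf_of hc).nY.2.1 hE.yY
  have hxy : x ≠ y := by
    rintro rfl
    exact hx1 hy1
  have hxv : x ≠ v := (G.ne_of_adj hE.vx).symm
  have hyp : y ≠ p := by
    rintro rfl
    exact hvp hE.vy
  have hyq : y ≠ q := hE.yq
  have hzx : ∀ F, IsFace (dl G p q) {v}ᶜ F → x ∈ F → z ∉ F := by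
    intro F hF hxF hz
    rcases hcf.all F hF hz with k | k | k | k
    · exact hx1 (k ▸ hxF)
    · exact hx2 (k ▸ hxF)
    · exact hx3 (k ▸ hxF)
    · exact hx4 (k ▸ hxF)
  -- the two other neighbours of `v`
  obtain ⟨S, hS⟩ : ∃ S : Set V, S = {w | G.Adj v w ∧ w ≠ z ∧ w ≠ x ∧ w ≠ y} := ⟨_, rfl⟩
  have hSm : ∀ w, w ∈ S ↔ G.Adj v w ∧ w ≠ z ∧ w ≠ x ∧ w ≠ y := by
    intro w
    rw [hS]
    rfl
  have hScard : 1 < S.ncard := by
    have h1 := hB4 v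
    have h2 : {a | G.Adj v a} ⊆ S ∪ {z, x, y} := by
      intro a ha
      by_cases k : a = z ∨ a = x ∨ a = y
      · exact Or.inr k
      · push Not at k
        exact Or.inl ((hSm a).2 ⟨ha, k⟩)
    have h3 := (Set.ncard_le_ncard h2 (Set.toFinite _)).trans (Set.ncard_union_le _ _)
    have h4 := Set.ncard_insert_le z ({x, y} : Set V)
    have h5 := Set.ncard_insert_le x ({y} : Set V)
    rw [Set.ncard_singleton] at h5
    omega
  have hTPu : ∀ w ∈ S, ∀ w' ∈ S, TP G z v p q w → TP G z v p q w' → w = w' := by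
    intro w hw w' hw' h1 h2
    by_contra hne
    refine hCL3 fun a ha => ?_
    by_cases k : a = w
    · exact h2 ⟨ha.1, by
        rintro (k' | k')
        · exact ha.2 k'
        · exact hne (k ▸ k')⟩
    · exact h1 ⟨ha.1, by
        rintro (k' | k')
        · exact ha.2 k'
        · exact k k'⟩
  have hTNu : ∀ w ∈ S, ∀ w' ∈ S,
      (∃ σ b X Y Γ, Cut G z v p q r r' f1 f3 σ b X Y ∧ TN G z v p q r r' w b Γ ∧ x ∈ Γ ∧ Cof (dl G p q) {v}ᶜ b x) →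
      (∃ σ b X Y Γ, Cut G z v p q r r' f1 f3 σ b X Y ∧ TN G z v p q r r' w' b Γ ∧ x ∈ Γ ∧ Cof (dl G p q) {v}ᶜ b x) →
      w = w' := by
    rintro w hw w' hw' ⟨σ, b, X, Y, Γ, h1, h2, -, -⟩ ⟨σ', b', X', Y', Γ', h3, h4, -, -⟩
    by_contra hne
    rw [hSm] at hw hw'
    exact hMCD V G z v p q r r' f1 f2 f3 f4 X₀ Y₀ x y hE hx3 w w' σ b σ' b' X Y X' Y' Γ Γ' hw.1 hw.2.1 hw.2.2.1 hw.2.2.2
      hw'.1 hw'.2.1 hw'.2.2.1 hw'.2.2.2 hne h1 h2 h3 h4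
  have hW' : ∀ w ∈ S, (TP G z v p q w ∧ Cof (dl G p q) {v}ᶜ p x) ∨
    (∃ σ b X Y Γ, Cut G z v p q r r' f1 f3 σ b X Y ∧ TN G z v p q r r' w b Γ ∧ x ∈ Γ ∧ Cof (dl G p q) {v}ᶜ b x) := by
    intro w hw
    rw [hSm] at hw
    exact hW w hw.1 hw.2.1 hw.2.2.1 hw.2.2.2
  obtain ⟨w₁, hw₁, w₂, hw₂, hne, hT1, hpx, hT2⟩ : ∃ w₁ ∈ S, ∃ w₂ ∈ S, w₁ ≠ w₂ ∧ TP G z v p q w₁ ∧
      Cof (dl G p q) {v}ᶜ p x ∧ (∃ σ b X Y Γ, Cut G z v p q r r' f1 f3 σ b X Y ∧ TN G z v p q r r' w₂ b Γ ∧ x ∈ Γ ∧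
        Cof (dl G p q) {v}ᶜ b x) := by
    obtain ⟨a, ha, c, hc, hac⟩ := (Set.one_lt_ncard (Set.toFinite _)).1 hScard
    rcases hW' a ha with h1 | h1
    · rcases hW' c hc with h2 | h2
      · exact absurd (hTPu a ha c hc h1.1 h2.1) hac
      · exact ⟨a, ha, c, hc, hac, h1.1, h1.2, h2⟩
    · rcases hW' c hc with h2 | h2
      · exact ⟨c, hc, a, ha, hac.symm, h2.1, h2.2, h1⟩
      · exact absurd (hTNu a ha c hc h1 h2) hac
  have hSall : ∀ w ∈ S, w = w₁ ∨ w = w₂ := by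
    intro w hw
    rcases hW' w hw with h1 | h1
    · exact Or.inl (hTPu w hw w₁ hw₁ h1.1 hT1)
    · exact Or.inr (hTNu w hw w₂ hw₂ h1 hT2)
  obtain ⟨hv1, h1z, h1x, h1y⟩ := (hSm w₁).1 hw₁
  obtain ⟨hv2, h2z, h2x, h2y⟩ := (hSm w₂).1 hw₂
  obtain ⟨σ, b, X, Y, Γ, hcut, ⟨hNg, hbw, hwΓ, hNΓ⟩, hxΓ, hbx⟩ := hT2
  have hF := cf_of hcut
  obtain ⟨A1, A2, A3, A4, A5⟩ := hCUA V G z v p q r r' f1 f2 f3 f4 hcf σ b X Y hcut
  obtain ⟨hσΓ, hΓY, hfΓ, -, -, -⟩ := hGAA V G z v p q r r' f1 f2 f3 f4 hcf σ b X Y Γ hcut hNg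
  have hGB := hGAB V G z v p q r r' f1 f2 f3 f4 hcf σ b X Y Γ hcut hNg
  have h1p : w₁ ≠ p := by
    rintro rfl
    exact hvp hv1
  have h2p : w₂ ≠ p := by
    rintro rfl
    exact hvp hv2
  have hc1 : ¬ Cof (dl G p q) {v}ᶜ p w₁ := by
    intro hc
    refine hCL3 fun a ha => ?_
    by_cases k : a = w₁
    · exact Or.inr (k ▸ hc)
    · exact hT1 ⟨ha.1, by
        rintro (k' | k')
        · exact ha.2 k'
        · exact k k'⟩
  have h1Γ : w₁ = b ∨ w₁ ∈ Γ := by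
    by_cases k : w₁ = b
    · exact Or.inl k
    · exact Or.inr (hNΓ ⟨hv1, by
        rintro (k' | k')
        · exact hne k'
        · exact k k'⟩)
  have hc2 : Cof (dl G p q) {v}ᶜ p w₂ := by
    rcases hT1 ⟨hv2, by
        rintro (k' | k')
        · exact h2z k'
        · exact hne k'.symm⟩ with k | k
    · exact absurd k h2p
    · exact k
  have hb3 : b ∈ f3 := hcut.bf
  have hσ1 : σ ∈ f1 := hcut.sf
  have hbs : b ≠ r' := fun k => hF.nX.2.2.2 (k ▸ hF.sX)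
  have hbp' : b ≠ p := fun k => hF.nX.2.2.2 (k ▸ hF.pX)
  have hbq : b ≠ q := fun k => hF.nY.2.2.2 (k ▸ hF.qY)
  have hb1 : b ∉ f1 := fun k => hF.zb (m13 b k hb3)
  have hbv : b ≠ v := fun k => fv f3 hcf.i3 (k ▸ hb3)
  have hnbp : ¬ Cof (dl G p q) {v}ᶜ p b := fun k => hbs (hC3 b hb3 hF.zb k)
  have h23 : w₂ ∉ f3 := by
    intro k
    have := hC3 w₂ k h2z hc2
    exact hwΓ (this ▸ hNg.s)
  obtain ⟨h, hh1, hh2, hh3⟩ := hpx
  obtain ⟨g, hg1, hg2, hg3⟩ := hbx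
  have hzh : z ∉ h := hzx h hh1 hh3
  have hzg : z ∉ g := hzx g hg1 hg3
  -- the component of `r'`
  obtain ⟨W, hWd⟩ : ∃ W : Set V, W = ({v, z, p, x, b} : Set V)ᶜ := ⟨_, rfl⟩
  have hWm : ∀ a, a ∈ W ↔ a ≠ v ∧ a ≠ z ∧ a ≠ p ∧ a ≠ x ∧ a ≠ b := by
    intro a
    rw [hWd]
    simp [not_or]
  obtain ⟨C, hCW, hCc, hsC, hCm⟩ := exists_cmp (dl G p q) W r'
    ((hWm r').2 ⟨nvs.symm, nzs.symm, nps.symm, hE.xs.symm, hbs.symm⟩)
  have hCU : C ⊆ ({v}ᶜ : Set V) := fun a ha => ((hWm a).1 (hCW ha)).1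
  have hzC : z ∉ C := fun k => ((hWm z).1 (hCW k)).2.1 rfl
  -- the set `K`
  have hK1 : PC (dl G p q) {v}ᶜ {x} {h, g} := by
    refine hL4 x {h, g} hxv ?_
    rintro F (rfl | rfl)
    · exact hh3
    · exact hg3
  have hK2 : PC (dl G p q) {v}ᶜ {b} {f3} := by
    refine hL4 b {f3} hbv ?_
    rintro F rfl
    exact hb3
  have hK3 : PC (dl G p q) {v}ᶜ {p} ∅ := hL4 p ∅ nvp.symm (fun F hF => hF.elim)
  have hK4 := hL3 _ _ _ _ hK1 hK2 (Or.inr (Or.inr ⟨g, Or.inr rfl, b, rfl, hg1, hg2⟩))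
  have hK := hL3 _ _ _ _ hK4 hK3 (Or.inr (Or.inr ⟨h, Or.inl (Or.inl rfl), p, rfl, hh1, hh2⟩))
  have hzK : z ∉ (({x} ∪ {b} ∪ {p} : Set V)) := by
    rintro ((k | k) | k)
    · exact hxz k.symm
    · exact hF.zb k.symm
    · exact nzp k
  have hKC : Disjoint (({x} ∪ {b} ∪ {p} : Set V)) C := by
    rw [Set.disjoint_left]
    rintro a ((k | k) | k) ha
    · exact ((hWm a).1 (hCW ha)).2.2.2.1 k
    · exact ((hWm a).1 (hCW ha)).2.2.2.2 k
    · exact ((hWm a).1 (hCW ha)).2.2.1 k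
  have hKp : p ∈ (({x} ∪ {b} ∪ {p} : Set V)) := Or.inr rfl
  have hK3' : f3 ∈ (({h, g} ∪ {f3} ∪ ∅ : Set (Set V))) := Or.inl (Or.inr rfl)
  have hPC : PC (dl G p q) {v}ᶜ C ∅ := hL1 C hCU hCc
  have hqC : q ∉ C := by
    intro k
    exact hRIM V G z v p q r r' f1 f2 f3 f4 hcf _ _ _ _ hK hPC hKC (Set.disjoint_empty _) hzK hzC 0 4 5 6 (by decide)
      (by decide) (by decide) (Or.inl ⟨rfl, hKp⟩) (Or.inr (Or.inr (Or.inr (Or.inr (Or.inl ⟨rfl, k⟩)))))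
      (Or.inr (Or.inr (Or.inr (Or.inr (Or.inr (Or.inl ⟨rfl, hK3'⟩))))))
      (Or.inr (Or.inr (Or.inr (Or.inr (Or.inr (Or.inr (Or.inl ⟨rfl, hsC⟩)))))))
  have hpC : p ∉ C := fun k => ((hWm p).1 (hCW k)).2.2.1 rfl
  have hfC : ∀ a ∈ f1, a ∉ C := by
    intro a ha k
    have hL := hL3 _ _ _ _ hPC (hL2 f1 hcf.i1) (Or.inr (Or.inl ⟨a, k, f1, rfl, hcf.i1, ha⟩))
    refine hRIM V G z v p q r r' f1 f2 f3 f4 hcf _ _ _ _ hK hL ?_ ?_ hzK ?_ 0 1 5 6 (by decide)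
      (by decide) (by decide) (Or.inl ⟨rfl, hKp⟩) (Or.inr (Or.inl ⟨rfl, Or.inr rfl⟩))
      (Or.inr (Or.inr (Or.inr (Or.inr (Or.inr (Or.inl ⟨rfl, hK3'⟩))))))
      (Or.inr (Or.inr (Or.inr (Or.inr (Or.inr (Or.inr (Or.inl ⟨rfl, Or.inl hsC⟩)))))))
    · rw [Set.union_empty]
      exact hKC
    · rw [Set.disjoint_left]
      rintro F (((k1 | k1) | k1) | k1) (k2 | k2)
      · exact k2
      · exact hx1 (k2 ▸ k1 ▸ hh3)
      · exact k2
      · exact hx1 (k2 ▸ k1 ▸ hg3)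
      · exact k2
      · exact hb1 (k2 ▸ k1 ▸ hb3)
      · exact k1
      · exact k1
    · rintro (k | k)
      · exact hzC k
      · exact k
  -- `v` has a neighbour in `C`
  have hNb : Nb G C ⊆ {v, z, p, x, b} := by
    rintro n ⟨hn, a, ha, han⟩
    by_contra k
    have hnW : n ∈ W := by
      rw [hWd]
      exact k
    refine hn (hCm a ha n hnW ⟨han, ?_, ?_⟩)
    · rintro ⟨rfl, -⟩
      exact hpC ha
    · rintro ⟨rfl, -⟩
      exact hqC ha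
  have hvC : ∃ c ∈ C, G.Adj v c := by
    by_contra hno
    push Not at hno
    have hN4 : Nb G C ⊆ {z, p, x, b} := by
      intro n hn
      rcases hNb hn with k | k
      · obtain ⟨-, a, ha, han⟩ := hn
        exact absurd (k ▸ han.symm) (hno a ha)
      · exact k
    have hc4 : (Nb G C).ncard ≤ 4 := by
      have h1 := Set.ncard_le_ncard hN4 (Set.toFinite _)
      have h2 := Set.ncard_insert_le z ({p, x, b} : Set V)
      have h3 := Set.ncard_insert_le p ({x, b} : Set V)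
      have h4 := Set.ncard_insert_le x ({b} : Set V)
      rw [Set.ncard_singleton] at h4
      omega
    have hq := hB6 C ⟨r', hsC⟩ hc4
    have hq' : q ∈ C ∪ Nb G C := hq ▸ Set.mem_univ q
    rcases hq' with k | k
    · exact hqC k
    · rcases hN4 k with k | k | k | k
      · exact nzq k.symm
      · exact npq k.symm
      · exact hx2 (k ▸ hcf.q2)
      · exact hbq k.symm
  obtain ⟨c, hcC, hvc⟩ := hvC
  have hcW := (hWm c).1 (hCW hcC)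
  have hcy : c ≠ y := by
    rintro rfl
    exact hfC c hy1 hcC
  have hcS : c ∈ S := (hSm c).2 ⟨hvc, hcW.2.1, hcW.2.2.2.1, hcy⟩
  obtain ⟨c', hc'S, hcc', hc'all⟩ : ∃ c' ∈ S, c ≠ c' ∧ ∀ w ∈ S, w = c ∨ w = c' := by
    rcases hSall c hcS with k | k
    · exact ⟨w₂, hw₂, k ▸ hne, fun w hw => k ▸ hSall w hw⟩
    · exact ⟨w₁, hw₁, k ▸ hne.symm, fun w hw => (k ▸ hSall w hw).symm⟩
  obtain ⟨hvc', hc'z, hc'x, hc'y⟩ := (hSm c').1 hc'S
  -- `b` is in `Γ`s of other cuts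
  have hkey : ∀ σ' X₁ Y₁, Cut G z v p q r r' f1 f3 σ' b X₁ Y₁ → σ' ∈ Γ ∧ Γ ∩ Y₁ = f1 ∩ Y₁ := by
    intro σ' X₁ Y₁ hc
    obtain ⟨k1, k2, -⟩ := hGAA V G z v p q r r' f1 f2 f3 f4 hcf σ' b X₁ Y₁ Γ hc hNg
    exact ⟨k1, k2⟩
  -- `w₂` in the top side implies `w₂ ∈ X`
  have hX2 : w₂ ∈ f1 → w₂ ∈ X := by
    intro k
    rcases hF.cov w₂ with k1 | k1 | k1 | k1 | k1 | k1
    · exact absurd k1 (G.ne_of_adj hv2).symm
    · exact absurd k1 h2z
    · exact absurd (k1 ▸ hσΓ) hwΓ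
    · exact absurd k1.symm hbw
    · exact k1
    · have : w₂ ∈ Γ ∩ Y := by
        rw [hΓY]
        exact ⟨k, k1⟩
      exact absurd this.1 hwΓ
  -- the type of `x`
  rcases hCL1 x hE.vx hxz with ⟨F, hFa, hFb⟩ | hTP | hTQ | ⟨t, Γ', hNg', htx, hxΓ', hNΓ'⟩
  · -- TH
    have hin : ∀ w, G.Adj v w → w ≠ z → w ≠ x → w ∈ F := fun w h1 h2 h3 => hFb ⟨h1, by
      rintro (k | k)
      · exact h2 k
      · exact h3 k⟩
    have hyF := hin y hE.vy hyz hxy.symm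
    have h1F := hin w₁ hv1 h1z h1x
    have h2F := hin w₂ hv2 h2z h2x
    obtain ⟨-, -, -, -, hHF⟩ := hHFA V G z v p q r r' f1 f2 f3 f4 hcf
    rcases hHF F hFa with k | k | ⟨hFP, hzF⟩
    · rw [k] at h1F
      rcases h1F.1 with k1 | k1
      · exact hc1 ⟨f1, hcf.i1, hcf.p1, k1⟩
      · rcases A2.1 k1 with k2 | k2
        · exact h1z k2
        · rcases h1Γ with k3 | k3
          · exact hF.nY.2.2.2 (k3 ▸ k2)
          · have : w₁ ∈ Γ ∩ Y := ⟨k3, k2⟩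
            rw [hΓY] at this
            exact hc1 ⟨f1, hcf.i1, hcf.p1, this.1⟩
    · rw [k] at hyF
      rcases hyF.1 with k1 | k1
      · exact hyz (m13 y hy1 k1)
      · rcases m41 y k1 hy1 with k2 | k2
        · exact hyz k2
        · exact hyp k2
    · have hxF : x ∉ F := by
        intro k
        refine hCL2 F hFa fun a ha => ?_
        by_cases k1 : a = x
        · exact k1 ▸ k
        · exact hin a ha.1 ha.2 k1
      have hcF := hin c hvc hcW.2.1 hcW.2.2.2.1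
      have hc'F := hin c' hvc' hc'z hc'x
      have hmain : ∀ t ∈ F, t ≠ c → t ≠ y → (p ∈ F ∧ p ≠ t) ∨ (b ∈ F ∧ b ≠ t) := by
        intro t ht htc hty
        obtain ⟨hcon, -⟩ := hFAY V (dl G p q) {v}ᶜ F hFP t ht
        obtain ⟨a, ha, n, hn, haC, hnC, han⟩ := edge_out hcon (A := C) ⟨hcF, fun k => htc k.symm⟩ hcC
          ⟨hyF, fun k => hty k.symm⟩ (hfC y hy1)
        have hnW : n ∉ W := fun k => hnC (hCm a haC n k han)
        rw [hWd] at hnW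
        have hnW' : n ∈ ({v, z, p, x, b} : Set V) := by
          by_contra k
          exact hnW k
        rcases hnW' with k | k | k | k | k
        · exact absurd (k ▸ hn.1) (fv F hFP)
        · exact absurd (k ▸ hn.1) hzF
        · exact Or.inl ⟨k ▸ hn.1, fun k' => hn.2 (k.trans k')⟩
        · exact absurd (k ▸ hn.1) hxF
        · exact Or.inr ⟨k ▸ hn.1, fun k' => hn.2 (k.trans k')⟩
      have hpb : p ∈ F ∧ b ∈ F := by
        rcases hmain c' hc'F hcc'.symm hc'y with k | k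
        · refine ⟨k.1, ?_⟩
          rcases hmain p k.1 hcW.2.2.1.symm hyp.symm with k1 | k1
          · exact absurd rfl k1.2
          · exact k1.1
        · refine ⟨?_, k.1⟩
          rcases hmain b k.1 hcW.2.2.2.2.symm (fun k' => hb1 (k' ▸ hy1)) with k1 | k1
          · exact k1.1
          · exact absurd rfl k1.2
      exact hnbp ⟨F, hFP, hpb.1, hpb.2⟩
  · -- TP
    rcases hTP ⟨hv1, by
        rintro (k | k)
        · exact h1z k
        · exact h1x k⟩ with k | k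
    · exact h1p k
    · exact hc1 k
  · -- TQ
    rcases hTQ ⟨hE.vy, by
        rintro (k | k)
        · exact hyz k
        · exact hxy k.symm⟩ with k | k
    · exact hyq k
    · exact hE.yr (hC1 y hy1 hyz k)
  · -- TN
    obtain ⟨-, -, -, hE4⟩ := hENS V G z v p q r r' f1 f2 f3 f4 X₀ Y₀ x y hE
    have h2Γ' : w₂ = t ∨ w₂ ∈ Γ' := by
      by_cases k : w₂ = t
      · exact Or.inl k
      · exact Or.inr (hNΓ' ⟨hv2, by
          rintro (k' | k')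
          · exact h2x k'
          · exact k k'⟩)
    obtain ⟨b', X', Y', hcut' | hcut'⟩ := hE4 t Γ' hNg'
    · -- `t` is the first member
      have hF' := cf_of hcut'
      obtain ⟨A1', A2', A3', A4', A5'⟩ := hCUA V G z v p q r r' f1 f2 f3 f4 hcf t b' X' Y' hcut'
      obtain ⟨-, hΓX', -⟩ := hGAA V G z v q p r' r f3 f4 f1 f2 hcfr b' t Y' X' Γ' (hCutr t b' X' Y' hcut')
        (hNgr t Γ' hNg').1
      have ht1 : t ∈ f1 := hcut'.sf
      have hb'3 : b' ∈ f3 := hcut'.bf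
      have hbt : b ≠ t := fun k => hb1 (k ▸ ht1)
      have h2X' : w₂ ∉ X' := by
        intro k
        rcases h2Γ' with k1 | k1
        · exact hF'.nX.2.2.1 (k1 ▸ k)
        · have : w₂ ∈ Γ' ∩ X' := ⟨k1, k⟩
          rw [hΓX'] at this
          exact h23 this.1
      have h2or : w₂ = t ∨ (w₂ ∈ Y' ∧ w₂ ∈ f1) := by
        rcases hF'.cov w₂ with k1 | k1 | k1 | k1 | k1 | k1
        · exact absurd k1 (G.ne_of_adj hv2).symm
        · exact absurd k1 h2z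
        · exact Or.inl k1
        · exact absurd (k1 ▸ hb'3) h23
        · exact absurd k1 h2X'
        · exact Or.inr ⟨k1, A4'.1 w₂ k1 hc2⟩
      have h2f : w₂ ∈ f1 := by
        rcases h2or with k | k
        · exact k ▸ ht1
        · exact k.2
      have h2X := hX2 h2f
      have hrot : σ ∈ Y' → t ∈ X := (hORD V G z v q p r' r f3 f4 f1 f2 hcfr b σ b' t Y X Y' X'
        (hCutr σ b X Y hcut) (hCutr t b' X' Y' hcut')).1
      have htX : t ∈ X := by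
        rcases h2or with k | k
        · exact k ▸ h2X
        · by_contra htX
          have hσY' : σ ∉ Y' := fun k1 => htX (hrot k1)
          have hsub : f1 ∩ Y' ⊆ Y := side hcut A3'.2.2.1 (fun k1 => hF'.nY.1 k1.2) (fun k1 => hF'.nY.2.1 k1.2)
            (fun k1 => hσY' k1.2) (fun k1 => hb1 k1.1) ⟨hcf.r1, hF'.rY⟩ hF.rY
          exact hF.XY w₂ h2X (hsub ⟨k.2, k.1⟩)
      obtain ⟨X₁, Y₁, hcut1⟩ : ∃ X₁ Y₁, Cut G z v p q r r' f1 f3 t b X₁ Y₁ := by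
        rcases hF'.cov b with k1 | k1 | k1 | k1 | k1 | k1
        · exact absurd k1 hbv
        · exact absurd k1 hF.zb
        · exact absurd k1 hbt
        · exact ⟨X', Y', k1 ▸ hcut'⟩
        · obtain ⟨-, -, k2⟩ := hORD V G z v p q r r' f1 f2 f3 f4 hcf σ b t b' X Y X' Y' hcut hcut'
          obtain ⟨X₁, Y₁, k3, -⟩ := k2 k1 htX
          exact ⟨X₁, Y₁, k3⟩
        · have hxX' : x ∈ X' := (hE.mX t b' X' Y' hcut').1 hE.xX
          have htg := (A1' g hg1 hzg ⟨x, hg3, hxX'⟩ ⟨b, hg2, k1⟩).1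
          exact hCUM V G z v p q r r' f1 f2 f3 f4 hcf t ht1 b hb3 hF'.zs (fun k => hF'.nX.2.2.1 (k ▸ hF'.pX))
            (fun k => hF'.nY.2.2.1 (k ▸ hF'.rY)) hF.zb hbq hbs ⟨g, hg1, htg, hg2⟩
      obtain ⟨k1, k2⟩ := hkey t X₁ Y₁ hcut1
      rcases h2or with k | k
      · exact hwΓ (k ▸ k1)
      · have hF1 := cf_of hcut1
        have hsub : f1 ∩ Y' ⊆ Y₁ := side hcut1 A3'.2.2.1 (fun k1 => hF'.nY.1 k1.2) (fun k1 => hF'.nY.2.1 k1.2)
          (fun k1 => hF'.nY.2.2.1 k1.2) (fun k1 => hb1 k1.1) ⟨hcf.r1, hF'.rY⟩ hF1.rY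
        have : w₂ ∈ Γ ∩ Y₁ := by
          rw [k2]
          exact ⟨k.2, hsub ⟨k.2, k.1⟩⟩
        exact hwΓ this.1
    · -- `t` is the second member
      have hF' := cf_of hcut'
      obtain ⟨A1', A2', A3', A4', A5'⟩ := hCUA V G z v p q r r' f1 f2 f3 f4 hcf b' t X' Y' hcut'
      have hGB' := hGAB V G z v p q r r' f1 f2 f3 f4 hcf b' t X' Y' Γ' hcut' hNg'
      have ht3 : t ∈ f3 := hcut'.bf
      have hs1 : b' ∈ f1 := hcut'.sf
      have hxX' : x ∈ X' := (hE.mX b' t X' Y' hcut').1 hE.xX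
      have htb : t ≠ b := by
        rintro rfl
        have hPn : Pn G {t, v}ᶜ := ⟨hB2 t v, hNg.pl⟩
        have heq := (hFNB V G {t, v}ᶜ hPn).2.2.2.2.1 Γ Γ' hNg.fa hNg'.fa z r r' hNg.z hNg.r hNg.s hNg'.z hNg'.r hNg'.s
          nzr nrs nzs
        exact hxΓ' (heq ▸ hxΓ)
      have hxt : ¬ Cof (dl G p q) {v}ᶜ t x := fun k => hxΓ' ((hGB' x hxX').2 k)
      have hbX' : b ∈ X' := by
        rcases hF'.cov b with k1 | k1 | k1 | k1 | k1 | k1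
        · exact absurd k1 hbv
        · exact absurd k1 hF.zb
        · exact absurd (k1 ▸ hs1) hb1
        · exact absurd k1.symm htb
        · exact k1
        · exact absurd ⟨g, hg1, (A1' g hg1 hzg ⟨x, hg3, hxX'⟩ ⟨b, hg2, k1⟩).2, hg3⟩ hxt
      obtain ⟨o1, o2, o3⟩ := hORD V G z v p q r r' f1 f2 f3 f4 hcf σ b b' t X Y X' Y' hcut hcut'
      have htY : t ∈ Y := o1 hbX'
      have hXY' : ∀ a, a ∈ X → a ∉ Y' := by
        intro a ha ha'
        have := (hUNX V G z v p q r r' f1 f2 f3 f4 hcf σ b b' t X Y X' Y' hcut hcut' ⟨a, ha, ha'⟩).2.1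
        exact hF'.XY b hbX' this
      have h2t : w₂ ≠ t := fun k => h23 (k ▸ ht3)
      have h2Γ : w₂ ∈ Γ' := h2Γ'.resolve_left h2t
      rcases hF'.cov w₂ with k1 | k1 | k1 | k1 | k1 | k1
      · exact (G.ne_of_adj hv2).symm k1
      · exact h2z k1
      · have h2X := hX2 (k1 ▸ hs1)
        obtain ⟨X₁, Y₁, k3, -⟩ := o3 hbX' (k1 ▸ h2X)
        exact hwΓ (k1 ▸ (hkey b' X₁ Y₁ k3).1)
      · exact h2t k1
      · obtain ⟨Ω, hΩ1, hΩ2, hΩ3⟩ := (hGB' w₂ k1).1 h2Γ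
        have hzΩ : z ∉ Ω := by
          intro hz
          rcases hcf.all Ω hΩ1 hz with k | k | k | k
          · exact hF'.zb (m13 t (k ▸ hΩ2) ht3)
          · rcases m23 t (k ▸ hΩ2) ht3 with k' | k'
            · exact hF'.zb k'
            · exact hF'.nY.2.2.2 (k' ▸ hF'.qY)
          · exact h23 (k ▸ hΩ3)
          · rcases m34 t ht3 (k ▸ hΩ2) with k' | k'
            · exact hF'.zb k'
            · exact hF'.nX.2.2.2 (k' ▸ hF'.sX)
        have h2X : w₂ ∈ X := by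
          rcases hF.cov w₂ with k2 | k2 | k2 | k2 | k2 | k2
          · exact absurd k2 (G.ne_of_adj hv2).symm
          · exact absurd k2 h2z
          · exact absurd (k2 ▸ hσΓ) hwΓ
          · exact absurd k2.symm hbw
          · exact k2
          · exact hX2 (A4.1 w₂ k2 hc2)
        have hbΩ := (A1 Ω hΩ1 hzΩ ⟨w₂, hΩ3, h2X⟩ ⟨t, hΩ2, htY⟩).2
        exact hwΓ ((hGB w₂ h2X).2 ⟨Ω, hΩ1, hbΩ, hΩ3⟩)
      · exact hXY' w₂ (hX2 (A4'.1 w₂ k1 hc2)) k1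

end Pool.Agent.Helper62.MA
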